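import Pool.Agent.H371R3.BE.Main
import Pool.Agent.H371R3.BE.HD
import Pool.Agent.H371R3.BE.BD
import Pool.Agent.H371R3.BE.CM
import Pool.Agent.H371R3.BE.MM
import Pool.Agent.H371R3.BE.PC
import Pool.Agent.H371R3.BE.PM
import Pool.Agent.H371R3.BE.PO
import Pool.Agent.H371R3.BE.PS
import Pool.Agent.H371R3.BE.SZ
import Pool.Agent.H371R3.BE.UB
import Pool.Agent.H612.BB.T_LEX
import Pool.Agent.H612.BB.T_COD

/-!
# The two-variable bilinear fragment of the existential theory of the reals is NP-complete

An instance `φ : Inst` is a conjunction of disjunctions of literals; a literal `((i, j), F, s)` with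
`F = (A, B, C, D)` (integers in binary, `i = j` allowed) says that the sign of
`A x_i x_j + B x_i + C x_j + D` is `s`: positive for `s = 1`, zero for `s = 0`, negative for
`s = -1`. `BSat φ` : there is a real solution. `instF φ` is the same statement as a quantifier-free
formula of the existential theory of the reals `ETR`.
-/

namespace Pool.Agent.Results.MP_47b99f_lc.BilinearFragment

open H612BB Pool.Agent.NPC Pool.Agent.NPC.ER Pool.Agent.H371R3.BE

/-- `BSat` is the truth of the sentences `∃ x, instF φ` over the reals, and it is `NP`-complete. -/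
theorem result :
    (∀ φ : Inst, ETR (instF φ) ↔ BSat φ) ∧ InNPP BSat ∧ NPHardP BSat := by
  have hPM : S_PM := t_PM LEX_holds t_MM
  have hBD : S_BD := t_BD hPM t_PC t_PS SGN_holds
  have hUB : S_UB := t_UB hBD COD_holds
  have hCM : S_CM := t_CM hUB SGN_holds
  exact ⟨etr_instF, inNP_of hCM (m_SN SGN_holds) t_SZ t_PO, t_HD⟩

end Pool.Agent.Results.MP_47b99f_lc.BilinearFragment
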