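import Pool.Agent.H549R2.HY.M

/-!
# Deciding hyperbolicity and real stability of cubic forms is `∀ℝ`-complete

An instance `P = (n, p)` is a number `n` of variables and a list `p` of terms, each term is an
integer coefficient (binary) with the list of its variables; `evR p x` is the value of the
polynomial at `x` (over any commutative ring).  `IsCForm P` says that all terms have degree exactly
three and variables less than `n`.

* `HypW P e`: the form is hyperbolic with respect to `e`, that is `p(e) ≠ 0` and for every real `x`
  all complex zeros `z` of `z ↦ p(x + z e)` are real.  `Hyp P`: `e` is the first unit vector.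
  `HypDir (P, e)`: `e` is a list of integers (missing entries are zero).
* `Stab P`: `p(z) ≠ 0` for all `z` in `ℂ ^ n` all whose coordinates have positive imaginary part.

(`Pool/Agent/H549R2/HY/Defs.lean`.)  `lang` is the language of the codes of the instances with a
property, `InER`, `ERComplete` the class `∃ℝ` and completeness for it under polynomial-time many-one
reductions (`Pool/Agent/ER/Defs.lean`), `ARComplete` the same for the complements
(`Pool/Agent/H625R2/TDefs.lean`), `InNP` is the class `NP` (`Pool/Agent/NPC/Defs.lean`).

Idea of the proof.  helper625 proved (for the spectral norm of tensors) that it is `∃ℝ`-hard to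
decide whether `σ² |v|² |w|² - ∑ⱼ βⱼ(v, w)²` is negative somewhere, for bilinear forms `βⱼ`.  Let
`T(v, w, u) = ∑ⱼ uⱼ βⱼ(v, w)`, `Q = |v|² + |w|² + 3 |u|²` and

  `p(x₀, v, w, u) = σ x₀³ - 3 σ x₀ Q + 18 T(v, w, u)`.

The cubic `t³ - 3 Q t + 2 q` has only real zeros iff `q² ≤ Q³`, here `q = 9 T / σ`, and by the
inequality of the means `81 |v|² |w|² |u|² ≤ Q³`, with equality for suitable `|v|`, `|w|`, `|u|`.  So
`p` is hyperbolic with respect to the first unit vector iff `|T| ≤ σ |v| |w| |u|` everywhere, iff the
biquadratic form is nonnegative.  For real stability `x₀` is replaced by `x₀ + 4 (sum of the other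
variables)`, which moves the positive orthant into the hyperbolicity cone; Gårding's theorem for
cubic forms is proved by a homotopy argument with the continuity of the zeros.

The files in `Pool/Agent/H549R2/HY` were written together with helpers 47, 48, 173, 189, 221, 227,
339, 405, 501 and 649 of the team.
-/

namespace Pool.Agent.Results.MP_47b99f_lc.HyperbolicCubics

open Pool.Agent.NPC Pool.Agent.NPC.ER Pool.Agent.NPC.ER.Tens Pool.Agent.NPC.H549CV
open Pool.Agent.NPC.H549HY

/-- **Main theorem.** Deciding whether a cubic form is hyperbolic with respect to the first unit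
vector, deciding whether a cubic form is hyperbolic with respect to a given integer vector, and
deciding whether a cubic form is real stable are `∀ℝ`-complete (the negations are
`∃ℝ`-complete); each of the negations is in `NP` iff `∃ℝ ⊆ NP`. -/
theorem result :
    (ARComplete (lang fun P : ℕ × QP => IsCForm P ∧ Hyp P) ∧
      ERComplete (lang fun P : ℕ × QP => IsCForm P ∧ ¬ Hyp P) ∧
      ((∀ L : Set (List Bool), InER L → InNP L) ↔
        InNP (lang fun P : ℕ × QP => IsCForm P ∧ ¬ Hyp P))) ∧
    (ARComplete (lang fun P : (ℕ × QP) × List ℤ => IsCForm P.1 ∧ HypDir P) ∧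
      ERComplete (lang fun P : (ℕ × QP) × List ℤ => IsCForm P.1 ∧ ¬ HypDir P) ∧
      ((∀ L : Set (List Bool), InER L → InNP L) ↔
        InNP (lang fun P : (ℕ × QP) × List ℤ => IsCForm P.1 ∧ ¬ HypDir P))) ∧
    (ARComplete (lang fun P : ℕ × QP => IsCForm P ∧ Stab P) ∧
      ERComplete (lang fun P : ℕ × QP => IsCForm P ∧ ¬ Stab P) ∧
      ((∀ L : Set (List Bool), InER L → InNP L) ↔
        InNP (lang fun P : ℕ × QP => IsCForm P ∧ ¬ Stab P))) :=
  ⟨hyp_complete, hypDir_complete, stab_complete⟩

end Pool.Agent.Results.MP_47b99f_lc.HyperbolicCubics
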