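import Pool.Agent.H549R2.CV.M

/-!
# Deciding convexity of quartic polynomials is `∀ℝ`-complete

An instance `P = (n, p)` is a number `n` of variables and a list `p` of terms, each term is an
integer coefficient (binary) with the list of its variables.  `fn P` is the function on `ℝ ^ n`
given by the polynomial; `IsQuartic P` says that all terms have degree at most four and variables
less than `n`, `IsForm P` that all terms have degree exactly four.  `Cvx`, `SCvx`, `QCvx`, `PCvx`,
`StrCvx` say that `fn P` is convex, strictly convex, quasiconvex, pseudoconvex, strongly convex on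
`ℝ ^ n` (`Pool/Agent/H549R2/CV/Defs.lean`; the first three and the last are Mathlib's notions).
`lang` is the language of the codes of the instances with a property, `InER`, `ERComplete` the
class `∃ℝ` and completeness for it under polynomial-time many-one reductions
(`Pool/Agent/ER/Defs.lean`), `InAR`, `ARHard`, `ARComplete` the same for the complements
(`Pool/Agent/H625R2/TDefs.lean`), `InNP` is the class `NP` (`Pool/Agent/NPC/Defs.lean`).

Idea of the proof.  helper625 proved (for the spectral norm of tensors) that the strict negativity
of a biquadratic form `b(v, w) = C |v|² |w|² - ∑ β(v, w)²` is `∃ℝ`-hard.  Let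
`f(v, w) = b(v, w) + Γ (|v|⁴ + |w|⁴)` with `Γ` larger than `C` plus the sum of the squares of the
norms of the bilinear forms `β`, as in the `NP`-hardness proof of Ahmadi, Olshevsky, Parrilo and
Tsitsiklis (2013).

* If `b ≥ 0` everywhere, the coefficient `c(z; h)` of `t²` in `f(z + t h)` is nonnegative.  The
  identity `a f(x) + a' f(y) - f(a x + a' y) = a a' (c(y + (1 + a) h / 3; h) + (1 - a + a²) f(h) / 3)`
  with `h = x - y`, `a + a' = 1`, shows without derivatives that `f` is strictly convex.
* If `b(v, w) < 0` then on the line `t ↦ (v, t w)` the function `f` has a strict local maximum at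
  `t = 0`, so it is neither quasiconvex nor pseudoconvex.

For strong convexity the sum of the squares of the variables is added to `f`.

The files in `Pool/Agent/H549R2/CV` were written together with helpers 329, 625, 782 and 818 of the
team.
-/

namespace Pool.Agent.Results.MP_47b99f_lc.QuarticConvexity

open Pool.Agent.NPC Pool.Agent.NPC.ER Pool.Agent.NPC.ER.Tens Pool.Agent.NPC.H549CV

/-- **Main theorem.** Deciding whether a quartic polynomial is convex, strictly convex,
quasiconvex or pseudoconvex is `∀ℝ`-complete (and the negations are `∃ℝ`-complete), even for quartic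
forms; each of these negations is in `NP` iff `∃ℝ ⊆ NP`.  Deciding strong convexity is
`∀ℝ`-hard. -/
theorem result :
    (∀ D ∈ [IsQuartic, IsForm], ∀ Q ∈ [Cvx, SCvx, QCvx, PCvx],
      ARComplete (lang fun P => D P ∧ Q P) ∧ ERComplete (lang fun P => D P ∧ ¬ Q P) ∧
      ((∀ L : Set (List Bool), InER L → InNP L) ↔ InNP (lang fun P => D P ∧ ¬ Q P))) ∧
    ARHard (lang fun P => IsQuartic P ∧ StrCvx P) := by
  refine ⟨fun D hD Q hQ => ?_, str_hard⟩
  have h : ARComplete (lang fun P => D P ∧ Q P) ∧ ERComplete (lang fun P => D P ∧ ¬ Q P) := by
    simp only [List.mem_cons, List.not_mem_nil, or_false] at hD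
    rcases hD with rfl | rfl
    · exact quartic_complete Q hQ
    · exact form_complete Q hQ
  exact ⟨h.1, h.2, np_iff h.2⟩

end Pool.Agent.Results.MP_47b99f_lc.QuarticConvexity
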