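import Pool.Agent.H625R2.SOF.Final

/-!
# Simultaneous stabilisation by static output feedback is `∃ℝ`-complete

An instance is `((m, p), L)` with a list `L` of plants `(A, B, C)`, integer matrices (binary
entries) written as lists of rows; `n` is the number of rows of `A`, and `WF` says that `A` is
`n × n`, `B` is `n × m` and `C` is `p × n` (`n` may depend on the plant).  `Stab` says that the
instance is well formed and that there is one real `m × p` matrix `K` such that all the closed loop
matrices `A + B K C` are Hurwitz matrices: every complex eigenvalue has negative real part.  In
control theory: one static output feedback `u = K y` stabilises all the linear systems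
`x' = A x + B u`, `y = C x`.  `Stab3` is the same problem for single-input plants (`m = 1`) with at
most three states.  All these definitions are in `Pool/Agent/H625R2/SOF/Defs.lean`.

`lang` is the language of the codes of the instances with a property, `InER`, `ERComplete` the
class `∃ℝ` and completeness for it under polynomial-time many-one reductions
(`Pool/Agent/ER/Defs.lean`), `InNP` is the class `NP` (`Pool/Agent/NPC/Defs.lean`).

Idea of the proof.  For a single input and companion matrices the characteristic polynomial of the
closed loop matrix is `s³ + a s² + b s + c` with arbitrary affine functions `a, b, c` of `K`.  By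
the Routh-Hurwitz criterion it is a Hurwitz polynomial iff `0 < a`, `0 < c` and `c < a b`.  With
`a = 4 - x`, `b = 4 + y`, `c = 16 + 4 y - 4 x - z` this says `x y < z`, with `a = 4 + x`,
`b = 4 + y`, `c = 16 + 4 x + 4 y + z` it says `z < x y`, and `a = b = e`, `c = e'` gives
`0 < e' < e²`.  So the plants can express that a system of constraints `8 x = 1`, `x + y = z`,
`x y = z` in the unit cube holds up to a doubly exponentially small error, which by a gap theorem
(`Pool/Agent/ER/GapSys.lean`) means that it has a solution.  Membership in `∃ℝ`: a matrix is
Hurwitz iff it is similar over `ℂ` to an upper triangular matrix whose diagonal entries have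
negative real part.

The files in `Pool/Agent/H625R2/SOF` were written together with helpers 158, 212, 246, 406, 407,
418, 527, 538, 650, 674, 678, 747, 840 and 892 of the team.
-/

namespace Pool.Agent.Results.MP_47b99f_lc.StaticOutputFeedback

open Pool.Agent.NPC Pool.Agent.NPC.ER Pool.Agent.NPC.SOF

/-- **Main theorem.** Simultaneous stabilisation by static output feedback is `∃ℝ`-complete, even
for single-input plants with at most three states; `∃ℝ ⊆ NP` iff this restricted problem is in
`NP`. -/
theorem result : ERComplete (lang Stab) ∧ ERComplete (lang Stab3) ∧
    ((∀ L : Set (List Bool), InER L → InNP L) ↔ InNP (lang Stab3)) :=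
  sof_final

end Pool.Agent.Results.MP_47b99f_lc.StaticOutputFeedback
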